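import Pool.Agent.H81.TOW.LW2
import Pool.Agent.H16.AV3B.DVP

/-!
# TOW, module UDB, part 3: the local ring of `F(t)` at `P`
-/

set_option autoImplicit false

namespace Pool.TOW.UD

open Polynomial Pool.HYP Pool.AVS Pool.Agent.H16.AV3B

section Field

variable {F : Type} [Field F] {P : F[X]}

theorem cop_unit {R : Type} [CommRing R] {a b : R} (h : IsUnit a) : IsCoprime a b := by
  obtain ⟨v, hv⟩ := h.exists_left_inv
  exact ⟨v, 0, by rw [hv, zero_mul, add_zero]⟩

theorem mem_VP (hP : Irreducible P) (x : RatFunc F) : x ∈ VP P hP ↔ x ∈ IP P := Iff.rfl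

theorem rf_mem (hP : Irreducible P) (a : F[X]) : rf a ∈ VP P hP :=
  (mem_IP_iff _).2 ⟨a, 1, fun h => hP.not_isUnit (isUnit_of_dvd_one h), by simp⟩

/-- Polynomials in the local ring at `P`. -/
noncomputable def jP (hP : Irreducible P) : F[X] →+* VP P hP where
  toFun a := ⟨rf a, rf_mem hP a⟩
  map_one' := Subtype.ext (map_one _)
  map_mul' a b := Subtype.ext (map_mul _ a b)
  map_zero' := Subtype.ext (map_zero _)
  map_add' a b := Subtype.ext (map_add _ a b)

theorem jP_val (hP : Irreducible P) (a : F[X]) : (jP hP a : RatFunc F) = rf a := rfl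

theorem rf_inj {a b : F[X]} (h : rf a = rf b) : a = b :=
  IsFractionRing.injective F[X] (RatFunc F) h

theorem locW (hP : Irreducible P) : LocW (RatFunc F) (VP P hP) (rf P) where
  pi_ne := (dv_P P hP).pi_ne
  pi_mem := rf_mem hP P
  unif := (dv_P P hP).unif
  arch := by
    intro x hx
    have hP0 : rf P ≠ 0 := am_ne hP.ne_zero
    have key : ∀ a : F[X], a ≠ 0 → ∃ (n : ℕ) (b : F[X]), a = P ^ n * b ∧ ¬ P ∣ b := by
      intro a ha
      have hf : FiniteMultiplicity P a := FiniteMultiplicity.of_not_isUnit hP.not_isUnit ha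
      obtain ⟨b, hb, hb2⟩ := hf.exists_eq_pow_mul_and_not_dvd
      exact ⟨_, b, hb, hb2⟩
    have hn0 : x.num ≠ 0 := RatFunc.num_ne_zero hx
    obtain ⟨n, a, ha, ha2⟩ := key _ hn0
    obtain ⟨m, b, hb, hb2⟩ := key _ (RatFunc.denom_ne_zero x)
    have ha0 : rf a ≠ 0 := am_ne (fun h => ha2 (h ▸ dvd_zero P))
    have hb0 : rf b ≠ 0 := am_ne (fun h => hb2 (h ▸ dvd_zero P))
    have hxe : x = rf P ^ ((n : ℤ) - m) * (rf a / rf b) := by
      conv_lhs => rw [← RatFunc.num_div_denom x, ha, hb]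
      rw [map_mul, map_mul, map_pow, map_pow, zpow_sub₀ hP0, zpow_natCast, zpow_natCast]
      field_simp
    have hz : rf P ^ ((n : ℤ) - m) ≠ 0 := zpow_ne_zero _ hP0
    have hq : x / rf P ^ ((n : ℤ) - m) = rf a / rf b := by
      conv_lhs => rw [hxe]
      rw [mul_comm, mul_div_assoc, div_self hz, mul_one]
    refine ⟨(n : ℤ) - m, ?_, ?_⟩
    · rw [hq]
      exact (mem_IP_iff _).2 ⟨a, b, hb2, rfl⟩
    · rw [hq, inv_div]
      exact (mem_IP_iff _).2 ⟨b, a, ha2, rfl⟩

/-- The reduction of polynomials. -/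
noncomputable def rP (hP : Irreducible P) : F[X] →+* IsLocalRing.ResidueField (VP P hP) :=
  (IsLocalRing.residue (VP P hP)).comp (jP hP)

theorem rP_zero (hP : Irreducible P) (a : F[X]) : rP hP a = 0 ↔ P ∣ a := by
  show IsLocalRing.residue (VP P hP) (jP hP a) = 0 ↔ _
  rw [W.residue_zero_iff (locW hP) (jP hP P) rfl]
  constructor
  · rintro ⟨y, hy⟩
    obtain ⟨p, q, hq, hpq⟩ := (mem_IP_iff _).1 y.2
    have hq0 := am_ne (fun h : q = 0 => hq (h ▸ dvd_zero P))
    have h2 : rf a = rf P * (y : RatFunc F) := congrArg Subtype.val hy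
    rw [hpq] at h2
    have h3 : q * a = P * p := by
      apply rf_inj
      show algebraMap F[X] (RatFunc F) (q * a) = algebraMap F[X] (RatFunc F) (P * p)
      rw [map_mul, map_mul]
      simp only [rf] at h2
      rw [h2]
      field_simp
    rcases hP.prime.dvd_or_dvd (Dvd.intro _ h3.symm) with h | h
    · exact absurd h hq
    · exact h
  · rintro ⟨b, rfl⟩
    exact ⟨jP hP b, by rw [map_mul]⟩

theorem rP_surj (hP : Irreducible P) : Function.Surjective (rP hP) := by
  intro y
  obtain ⟨z, rfl⟩ := IsLocalRing.residue_surjective y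
  obtain ⟨p, q, hq, hpq⟩ := (mem_IP_iff _).1 z.2
  have hq0 := am_ne (fun h : q = 0 => hq (h ▸ dvd_zero P))
  obtain ⟨u, v, huv⟩ := hP.coprime_iff_not_dvd.2 hq
  -- `u P + v q = 1`
  refine ⟨p * v, ?_⟩
  have h1 : IsLocalRing.residue (VP P hP) (jP hP q) ≠ 0 := by
    intro h
    exact hq ((rP_zero hP q).1 h)
  have h2 : jP hP q * z = jP hP p := by
    apply Subtype.ext
    show rf q * (z : RatFunc F) = rf p
    rw [hpq]
    field_simp
  have h3 : rP hP q * rP hP v = 1 := by
    have := congrArg (rP hP) huv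
    rw [map_add, map_mul, map_mul, (rP_zero hP P).2 dvd_rfl, mul_zero, zero_add, map_one] at this
    rw [mul_comm]; exact this
  have h4 : rP hP q * IsLocalRing.residue (VP P hP) z = rP hP p := by
    have := congrArg (IsLocalRing.residue (VP P hP)) h2
    rw [map_mul] at this
    exact this
  rw [map_mul, ← h4]
  linear_combination (IsLocalRing.residue (VP P hP) z) * h3

theorem rP_poly_zero (hP : Irreducible P) (p : F[X][X]) : p.map (rP hP) = 0 ↔ C P ∣ p := by
  rw [C_dvd_iff_dvd_coeff]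
  constructor
  · intro h i
    have := congrArg (fun q => q.coeff i) h
    rw [coeff_map, coeff_zero] at this
    exact (rP_zero hP _).1 this
  · intro h
    ext i
    rw [coeff_map, coeff_zero, (rP_zero hP _).2 (h i)]

theorem irr_rP (hP : Irreducible P) (γ : F[X][X]) :
    Irreducible (γ.map (AdjoinRoot.mk P)) ↔ Irreducible (γ.map (rP hP)) := by
  have hker : RingHom.ker (rP hP) = Ideal.span {P} := by
    ext p
    rw [RingHom.mem_ker, Ideal.mem_span_singleton, rP_zero]
  let e : AdjoinRoot P ≃+* IsLocalRing.ResidueField (VP P hP) :=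
    (Ideal.quotEquivOfEq hker.symm).trans
      (RingHom.quotientKerEquivOfSurjective (rP_surj hP))
  have h1 : γ.map (rP hP) = Polynomial.mapEquiv e (γ.map (AdjoinRoot.mk P)) := by
    rw [Polynomial.mapEquiv_apply, Polynomial.map_map]
    rfl
  rw [h1, MulEquiv.irreducible_iff]

/-- `f` over the local ring. -/
noncomputable abbrev fO (hP : Irreducible P) (f : F[X][X]) : (VP P hP)[X] := f.map (jP hP)

theorem oL_fO (hP : Irreducible P) (f : F[X][X]) : oL (VP P hP) (fO hP f) = fK f := by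
  rw [oL, fO, Polynomial.map_map]
  rfl

theorem rd_fO (hP : Irreducible P) (f : F[X][X]) : rd (VP P hP) (fO hP f) = f.map (rP hP) := by
  rw [rd, fO, Polynomial.map_map]
  rfl

theorem oL_inj {L : Type} [Field L] {O : ValuationSubring L} {p q : O[X]}
    (h : oL O p = oL O q) : p = q :=
  Polynomial.map_injective (algebraMap O L) Subtype.val_injective h

theorem lift_rP (hP : Irreducible P) (q : (IsLocalRing.ResidueField (VP P hP))[X]) :
    ∃ p : F[X][X], p.map (rP hP) = q := Polynomial.map_surjective _ (rP_surj hP) q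

theorem lift_rP_monic (hP : Irreducible P) (q : (IsLocalRing.ResidueField (VP P hP))[X])
    (hq : q.Monic) : ∃ p : F[X][X], p.map (rP hP) = q ∧ p.Monic := by
  have h1 : q ∈ lifts (rP hP) := by
    obtain ⟨p, hp⟩ := lift_rP hP q
    exact ⟨p, hp⟩
  obtain ⟨p, hp, -, hm⟩ := lifts_and_degree_eq_and_monic h1 hq
  exact ⟨p, hp, hm⟩

/-- common denominators. -/
theorem den (hP : Irreducible P) (p : (VP P hP)[X]) :
    ∃ (D : F[X]) (q : F[X][X]), ¬ P ∣ D ∧ C (jP hP D) * p = fO hP q := by
  induction p using Polynomial.induction_on' with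
  | add p q hp hq =>
    obtain ⟨D, p', hD, hp'⟩ := hp
    obtain ⟨E, q', hE, hq'⟩ := hq
    refine ⟨D * E, C E * p' + C D * q', fun h => (hP.prime.dvd_or_dvd h).elim hD hE, ?_⟩
    simp only [fO, Polynomial.map_add, Polynomial.map_mul, Polynomial.map_C] at hp' hq' ⊢
    rw [← hp', ← hq', map_mul, C_mul]
    ring
  | monomial n a =>
    obtain ⟨p, q, hq, hpq⟩ := (mem_IP_iff _).1 a.2
    have hq0 := am_ne (fun h : q = 0 => hq (h ▸ dvd_zero P))
    refine ⟨q, monomial n p, hq, ?_⟩
    have h1 : jP hP q * a = jP hP p := by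
      apply Subtype.ext
      show rf q * (a : RatFunc F) = rf p
      rw [hpq]
      field_simp
    rw [fO, Polynomial.map_monomial, C_mul_monomial, h1]

theorem us_of_usl (hP : Irreducible P) (f : F[X][X]) (α : (RatFunc F)[X])
    (h : USL (VP P hP) (fO hP f) α) : US P f α := by
  obtain ⟨s, p, hs, hd, hc⟩ := h
  obtain ⟨D, q, hD, hq⟩ := den hP p
  have hD0 : rf D ≠ 0 := am_ne (fun h => hD (h ▸ dvd_zero P))
  rw [oL_fO] at hs hd
  refine ⟨C (rf D) * s, C D * q, ?_, ?_, ?_⟩
  · refine IsCoprime.mul_left ?_ hs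
    exact cop_unit (isUnit_C.2 (isUnit_iff_ne_zero.2 hD0))
  · have h1 : fK (C D * q) = C (rf D) * (C (rf D) * oL (VP P hP) p) := by
      have h2 := congrArg (oL (VP P hP)) hq
      rw [oL_fO] at h2
      rw [fK, Polynomial.map_mul, Polynomial.map_C, ← fK, ← h2]
      simp only [oL, Polynomial.map_mul, Polynomial.map_C]
      rfl
    rw [h1]
    have h3 : α * (C (rf D) * s) ^ 2 - C (rf D) * (C (rf D) * oL (VP P hP) p) =
        C (rf D) ^ 2 * (α * s ^ 2 - oL (VP P hP) p) := by ring
    rw [h3]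
    exact dvd_mul_of_dvd_right hd _
  · have h1 : IsCoprime ((C D * q).map (rP hP)) (f.map (rP hP)) := by
      have h2 := congrArg (rd (VP P hP)) hq
      rw [rd_fO] at h2
      rw [Polynomial.map_mul, ← h2, ← rd_fO hP f]
      have hDu : IsUnit (C (rP hP D)) :=
        isUnit_C.2 (isUnit_iff_ne_zero.2 (fun h => hD ((rP_zero hP D).1 h)))
      rw [Polynomial.map_C]
      refine IsCoprime.mul_left (cop_unit hDu) ?_
      rw [rd, Polynomial.map_mul, Polynomial.map_C]
      exact IsCoprime.mul_left (cop_unit hDu) hc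
    obtain ⟨x, y, hxy⟩ := h1
    obtain ⟨a, rfl⟩ := lift_rP hP x
    obtain ⟨b, rfl⟩ := lift_rP hP y
    have h5 : (1 - (a * (C D * q) + b * f)).map (rP hP) = 0 := by
      rw [Polynomial.map_sub, Polynomial.map_add, Polynomial.map_mul, Polynomial.map_mul (f := rP hP) (p := b) (q := f),
        Polynomial.map_one, hxy, sub_self]
    obtain ⟨c, hc'⟩ := (rP_poly_zero hP _).1 h5
    exact ⟨a, b, c, by rw [← hc']; ring⟩

end Field

end Pool.TOW.UD
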