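import Pool.Agent.H29.TOW.S2

/-!
# TOW, modules IRS and IRS2: scaling of the roots and irreducibility modulo a prime
-/

set_option autoImplicit false

namespace Pool.TOW.UD

open Polynomial

theorem irr_of_scaleRoots {k : Type*} [Field k] {g : k[X]} (hg : g.Monic) (c : k)
    (h : Irreducible (g.scaleRoots c)) : Irreducible g := by
  have hd := natDegree_scaleRoots g c
  constructor
  · intro hu
    have h0 : g = 1 := hg.eq_one_of_isUnit hu
    apply h.not_isUnit
    have hm : (g.scaleRoots c).Monic := (monic_scaleRoots_iff c).2 hg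
    have : (g.scaleRoots c).natDegree = 0 := by rw [hd, h0, natDegree_one]
    rw [hm.natDegree_eq_zero.1 this]
    exact isUnit_one
  · intro a b hab
    have hne : a * b ≠ 0 := by rw [← hab]; exact hg.ne_zero
    have ha0 : a ≠ 0 := left_ne_zero_of_mul hne
    have hb0 : b ≠ 0 := right_ne_zero_of_mul hne
    have hs : g.scaleRoots c = a.scaleRoots c * b.scaleRoots c := by
      rw [hab, mul_scaleRoots_of_noZeroDivisors]
    rcases h.isUnit_or_isUnit hs with hu | hu
    · left
      have := natDegree_eq_zero_of_isUnit hu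
      rw [natDegree_scaleRoots] at this
      rw [Polynomial.isUnit_iff_degree_eq_zero, degree_eq_natDegree ha0, this]; rfl
    · right
      have := natDegree_eq_zero_of_isUnit hu
      rw [natDegree_scaleRoots] at this
      rw [Polynomial.isUnit_iff_degree_eq_zero, degree_eq_natDegree hb0, this]; rfl

theorem irr_scaleRoots {k : Type*} [Field k] {g : k[X]} (hg : g.Monic) {c : k} (hc : c ≠ 0)
    (h : Irreducible g) : Irreducible (g.scaleRoots c) := by
  refine irr_of_scaleRoots ((monic_scaleRoots_iff c).2 hg) c⁻¹ ?_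
  rw [← scaleRoots_mul, mul_inv_cancel₀ hc, scaleRoots_one]
  exact h

theorem map_sR {F : Type} [Field F] (P d : F[X]) (f : F[X][X]) (hP : Irreducible P)
    (hf : f.Monic) :
    (f.scaleRoots d).map (AdjoinRoot.mk P) = (f.map (AdjoinRoot.mk P)).scaleRoots
      (AdjoinRoot.mk P d) := by
  have := Fact.mk hP
  refine map_scaleRoots f d _ ?_
  rw [hf.leadingCoeff, map_one]
  exact one_ne_zero

end Pool.TOW.UD

namespace Pool.TOW

open Polynomial

theorem irs : IRSStmt := by
  intro F _ P d f _ hi hf _ h
  have := Fact.mk hi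
  rw [UD.map_sR P d f hi hf] at h
  exact UD.irr_of_scaleRoots (k := AdjoinRoot P) (hf.map _) _ h

theorem irs2 : IRS2Stmt := by
  intro F _ P d f _ hi hf hd h
  have := Fact.mk hi
  rw [UD.map_sR P d f hi hf]
  refine UD.irr_scaleRoots (k := AdjoinRoot P) (hf.map _) ?_ h
  rw [Ne, AdjoinRoot.mk_eq_zero]
  exact hd

end Pool.TOW
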